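import Mathlib
import Pool.Agent.H98.Olev5

set_option autoImplicit false

namespace Pool.Agent.Results.MP_aa1cf3_an.DoubleONS

open Set Filter Topology MeasureTheory Pool.Agent.H98.Olev

/-- Lebesgue measure on the unit square. -/
noncomputable def sq2 : Measure (ℝ × ℝ) := volume.restrict (Icc (0 : ℝ) 1 ×ˢ Icc (0 : ℝ) 1)

instance : IsProbabilityMeasure sq2 := ⟨by
  rw [sq2, Measure.restrict_apply_univ, Measure.volume_eq_prod, Measure.prod_prod]; simp⟩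

instance : NullSingletonClass sq2 := by unfold sq2; infer_instance

theorem result : ∃ φ : ℕ → ℕ → ℝ × ℝ → ℝ,
    (∀ i k, MemLp (φ i k) 2 sq2) ∧
    (∀ i k j l, ∫ z, φ i k z * φ j l z ∂sq2 = if (i, k) = (j, l) then 1 else 0) ∧
    (∃ M : ℝ, ∀ i k z, |φ i k z| ≤ M) ∧
    (∀ f : ℝ × ℝ → ℝ, MemLp f 2 sq2 → (∀ i k, ∫ z, f z * φ i k z ∂sq2 = 0) → f =ᵐ[sq2] 0) ∧
    ∀ a : ℕ → ℕ → ℝ, (Summable fun p : ℕ × ℕ => a p.1 p.2 ^ 2) → ∀ᵐ z ∂sq2,
      (∃ s : ℝ, ∀ ε > 0, ∃ N : ℕ, ∀ m ≥ N, ∀ n ≥ N,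
        |∑ i ∈ Finset.range m, ∑ k ∈ Finset.range n, a i k * φ i k z - s| < ε) ∧
      (∀ i, ∃ s : ℝ, Tendsto (fun n => ∑ k ∈ Finset.range n, a i k * φ i k z) atTop (𝓝 s)) ∧
      ∀ k, ∃ s : ℝ, Tendsto (fun m => ∑ i ∈ Finset.range m, a i k * φ i k z) atTop (𝓝 s) := by
  obtain ⟨φ, h1, h2, h3, h4⟩ := exists_system
  obtain ⟨T, S, h⟩ := iso_any sq2 mu
  have hm : ∀ z, Measurable (φ z) := fun z => (φ z).continuous.measurable
  refine ⟨fun i k z => φ (i, k) (T z), fun i k => ?_, fun i k j l => ?_,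
    ⟨5, fun i k z => h2 _ _⟩, fun f hf h0 => ?_, fun a ha => ?_⟩
  · exact MemLp.of_bound ((hm _).comp h.m1.measurable).aestronglyMeasurable 5
      (Eventually.of_forall fun z => h2 _ _)
  · rw [← h1, Lam_apply, ← h.m1.map_eq, integral_map h.m1.measurable.aemeasurable
      (ContinuousMap.continuous _).aestronglyMeasurable]
    rfl
  · have hg : Integrable (f ∘ S) mu :=
      h.m2.integrable_comp_of_integrable (hf.integrable one_le_two)
    have h5 := h3 _ hg fun z => by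
      rw [← h0 z.1 z.2]
      change ∫ w, f (S w) * φ z w ∂mu = ∫ x, f x * φ z (T x) ∂sq2
      rw [← h.m1.map_eq, integral_map h.m1.measurable.aemeasurable
        (h.m1.map_eq.symm ▸ hg.1.mul (hm z).aestronglyMeasurable)]
      exact integral_congr_ae (h.e1.mono fun x hx => by simp only [hx])
    filter_upwards [h.e1, h.m1.quasiMeasurePreserving.ae h5] with x a b
    simpa [a] using b
  · filter_upwards [h.m1.quasiMeasurePreserving.ae (h4 (fun p => a p.1 p.2) ha)] with z hz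
    obtain ⟨⟨s, hs⟩, b⟩ := hz
    refine ⟨⟨s, fun ε hε => ?_⟩, b⟩
    obtain ⟨N, hN⟩ := Metric.tendsto_atTop.1 hs ε hε
    exact ⟨max N.1 N.2, fun m hm n hn => hN (m, n)
      ⟨(le_max_left _ _).trans hm, (le_max_right _ _).trans hn⟩⟩

end Pool.Agent.Results.MP_aa1cf3_an.DoubleONS
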